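import Pool.Agent.N974.P15G.Nm

/-!
# P15G: the normalized central values at level `15`, the class `(+;-1,0)`
-/

set_option autoImplicit false

namespace Pool.Agent.N974.P15G

open Finset
open Pool.Agent.N969.P15 (un)
open Pool.Agent.N969.P17G (chP)
open Pool.Agent.N974.GN (X X_coc0 evenHom EvenHom cmp15 eigen15)
open Pool.Agent.N974.Gen (II symbP)
open Pool.Agent.N974.P21G (sum_four)
open Pool.Agent.N973.P15G (Aio Fd k9 wt_k9 par_k9 nz_k9 X_k9)

theorem X9 : X k9 8 (15 * 1) = -4 := by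
  have h1 := X_coc0 wt_k9 (a := 7) (b := -1) (c := 1) (d := -2) (by norm_num) (x := 1) (m := 5)
    nz_k9
  norm_num at h1
  have P := symbP eigen15 (by norm_num : 1 < 15)
  have hd : (7 : ℤ) * (-2) - 15 * ((-1) * 1) = 1 := by norm_num
  have h2 := cmp15 P (EvenHom.cast (evenHom wt_k9 par_k9)) hd
  norm_num at h2 ⊢
  have h3 : (X k9 7 15 : ℝ) = X k9 8 15 := by
    have e : (II Pool.Agent.N974.MF.f15 (1 / 2)).re - (II Pool.Agent.N974.MF.f15 0).re ≠ 0 :=
      ky15_ne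
    rw [mul_comm] at h2
    exact mul_right_cancel₀ e h2
  have h4 : X k9 7 15 = X k9 8 15 := by exact_mod_cast h3
  have e1 := X_k9 1 5
  have e2 := X_k9 2 5
  rw [Fd15] at e1
  rw [Fd25] at e2
  linarith

/-- **the class `(+;-1,0)`** -/
theorem sig_io {A : ℕ} (hA : Aio A) :
    sig15 A = -((∑ u ∈ un A, chP A u * Fd u A : ℤ) : ℝ) := by
  have hF := Pool.Agent.N973.P15G.Fd_of hA.1
  have h3 : ¬ 3 ∣ A := by have := hA.2.1; omega
  have hg : Nat.gcd 5 15 = Nat.gcd A 15 := Pool.Agent.N974.GN.gcd_r (p := 5) (q := 3) (N := 15) rfl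
    Nat.prime_three hA.2.2 h3
  have h := sum_sig15 wt_k9 par_k9 hF (m₀ := 5) (x₀ := 1) (by norm_num) isCoprime_one_left hg nz_k9
  rw [X9, sum_four X_k9] at h
  push_cast at h ⊢
  linarith

end Pool.Agent.N974.P15G
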