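import Pool.Agent.N974.P15G.Hom
import Pool.Agent.N974.P21G.Rel
import Pool.Agent.N969.RQ.Defs3

/-!
# P15G: the even symbols of `-m` at level `15`: mixed orientation, and forms with `5 ∣ a`, `3 ∤ a`
-/

set_option autoImplicit false

namespace Pool.Agent.N974.P15G

open Finset
open Pool.Agent.N969.P15 (un c2 Ev chE)
open Pool.Agent.N969.P17G (gen chP chM)
open Pool.Agent.N969.RQ (Fd Fl Flr)
open Pool.Agent.N975.Sym (ev act act_inv ev_act ev10)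
open Pool.Agent.N975.RQ (al al_ev al_dvd al_disc al_inv)
open Pool.Agent.N975.Ph (Phi)
open Pool.Agent.N974.GN (Wt Par X NZ U EvenHom NZ_inf X_pos X_coc0)
open Pool.Agent.N877.P21G (Fn gnM)
open Pool.Agent.N974.P21G (gb gb_act gb_al gnM_neg ok_of act_disc D_pos wt_of Phi_X evenPhi)

noncomputable section

/-- forms of discriminant `N²` with `15 ∣ a` and mixed orientation -/
def cE (N : ℕ) (q : ℤ × ℤ × ℤ) : Prop := q.2.1 ^ 2 - 4 * q.1 * q.2.2 = (N : ℤ) ^ 2 ∧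
  (15 : ℤ) ∣ q.1 ∧ (((3 : ℤ) ∣ q.2.1 - N ∧ (5 : ℤ) ∣ q.2.1 + N) ∨
    ((3 : ℤ) ∣ q.2.1 + N ∧ (5 : ℤ) ∣ q.2.1 - N))

/-- the same orientation at `3` and `5` -/
def cS (N : ℕ) (q : ℤ × ℤ × ℤ) : Prop := q.2.1 ^ 2 - 4 * q.1 * q.2.2 = (N : ℤ) ^ 2 ∧
  (15 : ℤ) ∣ q.1 ∧ (((3 : ℤ) ∣ q.2.1 - N ∧ (5 : ℤ) ∣ q.2.1 - N) ∨
    ((3 : ℤ) ∣ q.2.1 + N ∧ (5 : ℤ) ∣ q.2.1 + N))

/-- forms of discriminant `N²` with `5 ∣ a`, `3 ∤ a` -/
def cC (N : ℕ) (q : ℤ × ℤ × ℤ) : Prop := q.2.1 ^ 2 - 4 * q.1 * q.2.2 = (N : ℤ) ^ 2 ∧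
  (5 : ℤ) ∣ q.1 ∧ ¬ (3 : ℤ) ∣ q.1

/-- forms of discriminant `N²` of level `5` -/
def c5 (N : ℕ) (q : ℤ × ℤ × ℤ) : Prop := q.2.1 ^ 2 - 4 * q.1 * q.2.2 = (N : ℤ) ^ 2 ∧
  (5 : ℤ) ∣ q.1

open Classical in
/-- the weight of a condition -/
def kk (m : ℕ) (P : ℤ × ℤ × ℤ → Prop) (q : ℤ × ℤ × ℤ) : ℤ := if P q then gb m m q else 0

open Classical in
/-- the number of the forms with a condition which separate `∞` and `x / M` -/
def EE (m : ℕ) (P : ℤ × ℤ × ℤ → Prop) (x M : ℤ) : ℤ := ∑ᶠ q : ℤ × ℤ × ℤ,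
  if P q ∧ 0 < q.1 ∧ q.1 * x ^ 2 + q.2.1 * x * M + q.2.2 * M ^ 2 < 0 then gnM m q else 0

variable {m : ℕ} {P : ℤ × ℤ × ℤ → Prop}

theorem kk_pos {q : ℤ × ℤ × ℤ} (h : P q) : kk m P q = gb m m q := by
  unfold kk
  rw [if_pos h]

theorem kk_zero {q : ℤ × ℤ × ℤ} (h : ¬ P q) : kk m P q = 0 := by
  unfold kk
  rw [if_neg h]

theorem kk_ne {q : ℤ × ℤ × ℤ} (h : kk m P q ≠ 0) : P q := by
  by_contra h1
  exact h (kk_zero h1)

/-! ### the conditions -/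

section act

variable {p : ℤ}

theorem act_b {a b c d : ℤ} (h : a * d - b * c = 1) (hc : p ∣ c) {q : ℤ × ℤ × ℤ} (hq : p ∣ q.1) :
    p ∣ (act a b c d q).2.1 - q.2.1 := by
  obtain ⟨s, hs⟩ := hc
  obtain ⟨t, ht⟩ := hq
  refine ⟨2 * t * a * b + 2 * q.2.1 * b * s + 2 * q.2.2 * s * d, ?_⟩
  unfold act
  simp only
  rw [ht]
  rw [hs] at h ⊢
  linear_combination q.2.1 * h

theorem act_a {a b c d : ℤ} (hc : p ∣ c) {q : ℤ × ℤ × ℤ} (hq : p ∣ q.1) :
    p ∣ (act a b c d q).1 := by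
  obtain ⟨s, hs⟩ := hc
  obtain ⟨t, ht⟩ := hq
  refine ⟨t * a ^ 2 + q.2.1 * a * s + q.2.2 * s * c, ?_⟩
  unfold act
  simp only
  rw [ht, hs]
  ring

theorem dvd_shift {x y k : ℤ} (h : p ∣ x - y) : p ∣ x - k ↔ p ∣ y - k := by
  constructor
  · intro h1
    have h2 := h1.sub h
    have e : x - k - (x - y) = y - k := by ring
    rwa [e] at h2
  · intro h1
    have h2 := h1.add h
    have e : y - k + (x - y) = x - k := by ring
    rwa [e] at h2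

theorem dvd_shift' {x y k : ℤ} (h : p ∣ x - y) : p ∣ x + k ↔ p ∣ y + k := by
  have h1 := dvd_shift (k := -k) h
  rwa [sub_neg_eq_add, sub_neg_eq_add] at h1

end act

theorem three_of {x : ℤ} (h : (15 : ℤ) ∣ x) : (3 : ℤ) ∣ x := (by norm_num : (3 : ℤ) ∣ 15).trans h

theorem five_of {x : ℤ} (h : (15 : ℤ) ∣ x) : (5 : ℤ) ∣ x := (by norm_num : (5 : ℤ) ∣ 15).trans h

theorem p5 : Nat.Prime 5 := Nat.prime_five

theorem p5z : Prime (5 : ℤ) := by
  have := Nat.prime_iff_prime_int.1 p5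
  exact_mod_cast this

theorem dis {A : ℕ} {p : ℤ} (hp : Prime p) {q : ℤ × ℤ × ℤ}
    (h : q.2.1 ^ 2 - 4 * q.1 * q.2.2 = (A : ℤ) ^ 2) (h1 : p ∣ q.1) :
    p ∣ q.2.1 - A ∨ p ∣ q.2.1 + A := by
  apply hp.dvd_or_dvd
  obtain ⟨t, ht⟩ := h1
  refine ⟨4 * t * q.2.2, ?_⟩
  rw [ht] at h
  linear_combination h

/-- a condition invariant under `Γ₀(N)` -/
structure Inv (N : ℤ) (m : ℕ) (P : ℤ × ℤ × ℤ → Prop) : Prop where
  disc : ∀ q, P q → q.2.1 ^ 2 - 4 * q.1 * q.2.2 = (m : ℤ) ^ 2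
  act : ∀ {a b c d : ℤ}, a * d - b * (N * c) = 1 → ∀ q, P q → P (act a b (N * c) d q)
  refl : ∀ a b c : ℤ, P (-a, b, -c) ↔ P (a, b, c)
  neg : ∀ q, P (-q) ↔ P q

theorem inv_cE : Inv 15 m (cE m) where
  disc := fun _ h => h.1
  act := by
    intro a b c d h f ⟨h1, h2, h3⟩
    have e3 := act_b (p := 3) h (three_of (dvd_mul_right 15 c)) (three_of h2)
    have e5 := act_b (p := 5) h (five_of (dvd_mul_right 15 c)) (five_of h2)
    refine ⟨act_disc h1 h, act_a (dvd_mul_right 15 c) h2, ?_⟩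
    rw [dvd_shift e3, dvd_shift e5, dvd_shift' e3, dvd_shift' e5]
    exact h3
  refl := by
    intro a b c
    unfold cE
    simp only [dvd_neg]
    have : b ^ 2 - 4 * -a * -c = b ^ 2 - 4 * a * c := by ring
    rw [this]
  neg := by
    intro q
    unfold cE
    simp only [Prod.fst_neg, Prod.snd_neg, dvd_neg]
    have e0 : (-q.2.1) ^ 2 - 4 * -q.1 * -q.2.2 = q.2.1 ^ 2 - 4 * q.1 * q.2.2 := by ring
    have e1 : -q.2.1 - (m : ℤ) = -(q.2.1 + m) := by ring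
    have e2 : -q.2.1 + (m : ℤ) = -(q.2.1 - m) := by ring
    rw [e0, e1, e2, dvd_neg, dvd_neg, dvd_neg, dvd_neg]
    tauto

theorem inv_cS : Inv 15 m (cS m) where
  disc := fun _ h => h.1
  act := by
    intro a b c d h f ⟨h1, h2, h3⟩
    have e3 := act_b (p := 3) h (three_of (dvd_mul_right 15 c)) (three_of h2)
    have e5 := act_b (p := 5) h (five_of (dvd_mul_right 15 c)) (five_of h2)
    refine ⟨act_disc h1 h, act_a (dvd_mul_right 15 c) h2, ?_⟩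
    rw [dvd_shift e3, dvd_shift e5, dvd_shift' e3, dvd_shift' e5]
    exact h3
  refl := by
    intro a b c
    unfold cS
    simp only [dvd_neg]
    have : b ^ 2 - 4 * -a * -c = b ^ 2 - 4 * a * c := by ring
    rw [this]
  neg := by
    intro q
    unfold cS
    simp only [Prod.fst_neg, Prod.snd_neg, dvd_neg]
    have e0 : (-q.2.1) ^ 2 - 4 * -q.1 * -q.2.2 = q.2.1 ^ 2 - 4 * q.1 * q.2.2 := by ring
    have e1 : -q.2.1 - (m : ℤ) = -(q.2.1 + m) := by ring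
    have e2 : -q.2.1 + (m : ℤ) = -(q.2.1 - m) := by ring
    rw [e0, e1, e2, dvd_neg, dvd_neg, dvd_neg, dvd_neg]
    tauto

theorem inv_c5 : Inv 5 m (c5 m) where
  disc := fun _ h => h.1
  act := fun {a b c d} h f hf => ⟨act_disc hf.1 h, act_a (dvd_mul_right 5 c) hf.2⟩
  refl := by
    intro a b c
    unfold c5
    simp only [dvd_neg]
    have : b ^ 2 - 4 * -a * -c = b ^ 2 - 4 * a * c := by ring
    rw [this]
  neg := by
    intro q
    unfold c5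
    simp only [Prod.fst_neg, Prod.snd_neg, dvd_neg]
    have e0 : (-q.2.1) ^ 2 - 4 * -q.1 * -q.2.2 = q.2.1 ^ 2 - 4 * q.1 * q.2.2 := by ring
    rw [e0]

theorem inv_cC : Inv 15 m (cC m) where
  disc := fun _ h => h.1
  act := by
    intro a b c d h f ⟨h1, h2, h3⟩
    refine ⟨act_disc h1 h, act_a (five_of (dvd_mul_right 15 c)) h2, ?_⟩
    intro h4
    have h5 := act_a (p := 3) (a := d) (b := -b) (c := -(15 * c)) (d := a)
      (by rw [dvd_neg]; exact three_of (dvd_mul_right 15 c)) h4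
    rw [act_inv h] at h5
    exact h3 h5
  refl := by
    intro a b c
    unfold cC
    simp only [dvd_neg]
    have : b ^ 2 - 4 * -a * -c = b ^ 2 - 4 * a * c := by ring
    rw [this]
  neg := by
    intro q
    unfold cC
    simp only [Prod.fst_neg, Prod.snd_neg, dvd_neg]
    have e0 : (-q.2.1) ^ 2 - 4 * -q.1 * -q.2.2 = q.2.1 ^ 2 - 4 * q.1 * q.2.2 := by ring
    rw [e0]

/-! ### the weights -/

section wts

variable {N : ℤ}

theorem wt_kk (hm : Fn m) (I : Inv N m P) : Pool.Agent.N975.Ph.Wt N ((m : ℤ) ^ 2) (kk m P) where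
  D0 := D_pos hm
  disc := fun f hf => I.disc f (kk_ne hf)
  inv := by
    intro a b c d h f
    by_cases hf : P f
    · rw [kk_pos hf, kk_pos (I.act h f hf), gb_act (ok_of hm) (I.disc f hf) h]
    · rw [kk_zero hf, kk_zero]
      intro h1
      apply hf
      have h2 := I.act (a := d) (b := -b) (c := -c) (d := a) (by linear_combination h) _ h1
      have e : N * -c = -(N * c) := by ring
      rw [e, act_inv h] at h2
      exact h2

theorem wt_gn (hm : Fn m) (I : Inv N m P) (h0 : ∀ q, P q → q.1 ≠ 0) :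
    Wt N ((m : ℤ) ^ 2) (kk m P) where
  ne := (D_pos hm).ne'
  disc := (wt_kk hm I).disc
  inv := (wt_kk hm I).inv
  ninf := by
    intro f hf
    by_contra h1
    exact h0 f (kk_ne h1) hf

theorem par_kk (hm : Fn m) (I : Inv N m P) : Par (kk m P) (-1) := by
  intro a b c
  by_cases hf : P (a, b, c)
  · rw [kk_pos hf, kk_pos ((I.refl a b c).2 hf), gnM_neg hm a b c b]
    ring
  · rw [kk_zero hf, kk_zero (fun h1 => hf ((I.refl a b c).1 h1)), mul_zero]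

theorem neg_kk (hm : Fn m) (I : Inv N m P) (q : ℤ × ℤ × ℤ) : kk m P (-q) = -kk m P q := by
  by_cases hf : P q
  · rw [kk_pos hf, kk_pos ((I.neg q).2 hf)]
    exact gnM_neg hm q.1 q.2.1 q.2.2 (-q.2.1)
  · rw [kk_zero hf, kk_zero (fun h1 => hf ((I.neg q).1 h1)), neg_zero]

theorem X_kk (hm : Fn m) (I : Inv N m P) (h0 : ∀ q, P q → q.1 ≠ 0) (x M : ℤ) :
    X (kk m P) x M = 4 * EE m P x M := by
  classical
  rw [X_pos (wt_gn hm I h0) x M]
  have e : ∀ q : ℤ × ℤ × ℤ, (if 0 < q.1 ∧ ev q x M < 0 then kk m P q - kk m P (-q) else 0) =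
      2 * (if P q ∧ 0 < q.1 ∧ q.1 * x ^ 2 + q.2.1 * x * M + q.2.2 * M ^ 2 < 0 then
        gnM m q else 0) := by
    intro q
    rw [neg_kk hm I q]
    by_cases h : 0 < q.1 ∧ ev q x M < 0
    · rw [if_pos h]
      by_cases h1 : P q
      · rw [if_pos ⟨h1, h⟩, kk_pos h1]
        have : gb m m q = gnM m q := rfl
        rw [this]
        ring
      · rw [if_neg (fun h2 => h1 h2.1), kk_zero h1]
        ring
    · rw [if_neg h, if_neg (fun h2 => h h2.2), mul_zero]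
  rw [finsum_congr e, ← mul_finsum]
  unfold EE
  ring

end wts

theorem cE_ne (h3 : ¬ (3 : ℤ) ∣ m) (h5 : ¬ (5 : ℤ) ∣ m) {q : ℤ × ℤ × ℤ} (h : cE m q) :
    q.1 * q.2.2 ≠ 0 := by
  intro h0
  obtain ⟨h1, -, h2⟩ := h
  have h6 : (q.2.1 - m) * (q.2.1 + m) = 0 := by linear_combination h1 + 4 * h0
  rcases mul_eq_zero.1 h6 with h7 | h7
  · rcases h2 with ⟨-, h8⟩ | ⟨h8, -⟩ <;> omega
  · rcases h2 with ⟨h8, -⟩ | ⟨-, h8⟩ <;> omega

theorem cE_ne1 (h3 : ¬ (3 : ℤ) ∣ m) (h5 : ¬ (5 : ℤ) ∣ m) (q : ℤ × ℤ × ℤ) (h : cE m q) :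
    q.1 ≠ 0 := left_ne_zero_of_mul (cE_ne h3 h5 h)

theorem cC_ne1 (q : ℤ × ℤ × ℤ) (h : cC m q) : q.1 ≠ 0 := by
  intro h0
  apply h.2.2
  rw [h0]
  exact dvd_zero _

theorem nz_E (h3 : ¬ (3 : ℤ) ∣ m) (h5 : ¬ (5 : ℤ) ∣ m) : NZ (kk m (cE m)) 0 1 := by
  intro f h0
  by_contra hf
  refine cE_ne h3 h5 (kk_ne hf) ?_
  have e : ev f 0 1 = f.2.2 := by unfold ev; ring
  rw [← e, h0, mul_zero]

theorem nz_C : NZ (kk m (cC m)) 1 3 := by
  intro f h0
  by_contra hf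
  apply (kk_ne hf).2.2
  refine ⟨-(f.2.1 + 3 * f.2.2), ?_⟩
  unfold ev at h0
  linear_combination h0

theorem X8 {D : ℤ} {k : ℤ × ℤ × ℤ → ℤ} (H : Wt 15 D k) (hz : NZ k 0 1) :
    X k 8 (15 * 1) = X k 1 2 - X k 0 1 := by
  have h := X_coc0 H (a := 8) (b := 1) (c := 1) (d := 2) (by norm_num) (x := 0) (m := 1) hz
  norm_num at h ⊢
  linarith

/-! ### the relation of the weights -/

theorem sum_k5 (h3 : ¬ (3 : ℤ) ∣ m) (h5 : ¬ (5 : ℤ) ∣ m) (q : ℤ × ℤ × ℤ) :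
    kk m (c5 m) q = kk m (cE m) q + kk m (cS m) q + kk m (cC m) q := by
  by_cases h : c5 m q
  · obtain ⟨hd, ha5⟩ := h
    by_cases ha : (3 : ℤ) ∣ q.1
    · have h15 : (15 : ℤ) ∣ q.1 := by omega
      have d3 := dis Int.prime_three hd ha
      have d5 := dis p5z hd ha5
      have hC : ¬ cC m q := fun h => h.2.2 ha
      rw [kk_pos (show c5 m q from ⟨hd, ha5⟩), kk_zero hC, add_zero]
      rcases d3 with d3 | d3 <;> rcases d5 with d5 | d5
      · have hE : ¬ cE m q := by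
          rintro ⟨-, -, h | h⟩ <;> omega
        rw [kk_zero hE, kk_pos (show cS m q from ⟨hd, h15, Or.inl ⟨d3, d5⟩⟩), zero_add]
      · have hS : ¬ cS m q := by
          rintro ⟨-, -, h | h⟩ <;> omega
        rw [kk_zero hS, kk_pos (show cE m q from ⟨hd, h15, Or.inl ⟨d3, d5⟩⟩), add_zero]
      · have hS : ¬ cS m q := by
          rintro ⟨-, -, h | h⟩ <;> omega
        rw [kk_zero hS, kk_pos (show cE m q from ⟨hd, h15, Or.inr ⟨d3, d5⟩⟩), add_zero]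
      · have hE : ¬ cE m q := by
          rintro ⟨-, -, h | h⟩ <;> omega
        rw [kk_zero hE, kk_pos (show cS m q from ⟨hd, h15, Or.inr ⟨d3, d5⟩⟩), zero_add]
    · have hE : ¬ cE m q := fun h => ha (three_of h.2.1)
      have hS : ¬ cS m q := fun h => ha (three_of h.2.1)
      rw [kk_pos (show c5 m q from ⟨hd, ha5⟩), kk_zero hE, kk_zero hS,
        kk_pos (show cC m q from ⟨hd, ha5, ha⟩), zero_add, zero_add]
  · have hE : ¬ cE m q := fun h1 => h ⟨h1.1, five_of h1.2.1⟩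
    have hS : ¬ cS m q := fun h1 => h ⟨h1.1, five_of h1.2.1⟩
    have hC : ¬ cC m q := fun h1 => h ⟨h1.1, h1.2.1⟩
    rw [kk_zero h, kk_zero hE, kk_zero hS, kk_zero hC]
    ring

/-- there is no even symbol of level `5` -/
theorem Phi5 (hm : Fn m) {a b c d : ℤ} (h : a * d - 15 * (b * c) = 1) :
    Phi 15 (kk m (c5 m)) a b c d = 0 := by
  have e : (15 : ℤ) = 5 * 3 := by norm_num
  rw [e, Pool.Agent.N975.Ph.Phi_level]
  exact (evenPhi (wt_kk hm inv_c5) (par_kk hm inv_c5)).zero5 a b (3 * c) d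
    (by linear_combination h)

theorem Phi_sum5 (hm : Fn m) (h3 : ¬ (3 : ℤ) ∣ m) (h5 : ¬ (5 : ℤ) ∣ m) {a b c d : ℤ}
    (h : a * d - 15 * (b * c) = 1) :
    Phi 15 (kk m (cE m)) a b c d + Phi 15 (kk m (cS m)) a b c d +
      Phi 15 (kk m (cC m)) a b c d = 0 := by
  have h' : a * d - b * (15 * c) = 1 := by linear_combination h
  have HE := wt_kk hm (inv_cE (m := m))
  have HS := wt_kk hm (inv_cS (m := m))
  have HC := wt_kk hm (inv_cC (m := m))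
  have HES : Pool.Agent.N975.Ph.Wt 15 ((m : ℤ) ^ 2)
      (fun q => kk m (cE m) q + kk m (cS m) q) := by
    refine ⟨D_pos hm, ?_, ?_⟩
    · intro q hq
      by_cases h1 : kk m (cE m) q = 0
      · exact HS.disc q (fun h2 => hq (by rw [h1, h2, add_zero]))
      · exact HE.disc q h1
    · intro a b c d h q
      rw [HE.inv h, HS.inv h]
  rw [← Pool.Agent.N975.Ph.Phi_add HE HS h', ← Pool.Agent.N975.Ph.Phi_add HES HC h']
  have e : (fun q => kk m (cE m) q + kk m (cS m) q + kk m (cC m) q) = kk m (c5 m) :=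
    funext fun q => (sum_k5 h3 h5 q).symm
  rw [e]
  exact Phi5 hm h

/-- the involution of level `3` exchanges the two orientations -/
theorem kS_al (hm : Fn m) (h3 : ¬ (3 : ℤ) ∣ m) (h5 : ¬ (5 : ℤ) ∣ m) (hχ : chM m 3 = 1)
    {q : ℤ × ℤ × ℤ} (hq : (3 : ℤ) * 5 ∣ q.1) :
    kk m (cS m) (al 3 5 2 1 1 1 q) = 1 * kk m (cE m) q := by
  have hq3 : (3 : ℤ) ∣ q.1 := (Dvd.intro _ rfl).trans hq
  have hdet : (3 : ℤ) * 2 * 1 - 5 * 1 * 1 = 1 := by norm_num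
  have hdisc := al_disc (Q := 3) (R := 5) (α := 2) (B := 1) (γ := 1) (δ := 1)
    (by norm_num) hdet hq3
  have hdv : (3 : ℤ) * 5 ∣ (al 3 5 2 1 1 1 q).1 := al_dvd hq
  have hmid : (al 3 5 2 1 1 1 q).2.1 = 4 * q.1 + 11 * q.2.1 + 30 * q.2.2 := by
    unfold al
    simp only
    ring
  obtain ⟨t, ht⟩ := hq
  by_cases hM : cE m q
  · obtain ⟨hd, h15, hor⟩ := hM
    have hS : cS m (al 3 5 2 1 1 1 q) := by
      refine ⟨by rw [hdisc, hd], by norm_num at hdv; exact hdv, ?_⟩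
      rw [hmid]
      rcases hor with ⟨h1, h2⟩ | ⟨h1, h2⟩
      · right
        constructor <;> omega
      · left
        constructor <;> omega
    have hcop : IsCoprime (3 : ℤ) (m : ℤ) := Int.prime_three.coprime_iff_not_dvd.2 h3
    rw [kk_pos hS, kk_pos (show cE m q from ⟨hd, h15, hor⟩),
      gb_al (ok_of hm) (by norm_num) hdet hd ⟨t, ht⟩ hcop]
    have h := hχ
    unfold chM at h
    rw [h]
  · have hS : ¬ cS m (al 3 5 2 1 1 1 q) := by
      rintro ⟨hd, -, hor⟩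
      apply hM
      rw [hdisc] at hd
      rw [hmid] at hor
      refine ⟨hd, by rw [ht]; exact ⟨t, by ring⟩, ?_⟩
      rcases hor with ⟨h1, h2⟩ | ⟨h1, h2⟩
      · right
        constructor <;> omega
      · left
        constructor <;> omega
    rw [kk_zero hS, kk_zero hM, mul_zero]

/-- **the relation of the two weights** -/
theorem rel_C (hm : Fn m) (h3 : ¬ (3 : ℤ) ∣ m) (h5 : ¬ (5 : ℤ) ∣ m) (hχ : chM m 3 = 1) :
    X (kk m (cC m)) 8 (15 * 1) = -2 * X (kk m (cE m)) 8 (15 * 1) := by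
  have hE := wt_gn hm inv_cE (cE_ne1 h3 h5)
  have hC := wt_gn hm inv_cC (cC_ne1 (m := m))
  have HE := wt_kk hm (inv_cE (m := m))
  have hP : Pool.Agent.N975.Ph.Par (kk m (cE m)) (-1) := par_kk hm inv_cE
  have h0 : (8 : ℤ) * 2 - 1 * (15 * 1) = 1 := by norm_num
  have s1 := Phi_sum5 hm h3 h5 (a := 8) (b := 1) (c := 1) (d := 2) (by norm_num)
  have e15 : (3 : ℤ) * 5 = 15 := by norm_num
  have s2 := Pool.Agent.N975.Ph.Phi_al (Q := 3) (R := 5) (α := 2) (B := 1) (γ := 1) (δ := 1)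
    (k := kk m (cE m)) (k' := kk m (cS m)) (D := (m : ℤ) ^ 2) (ε := 1) (by norm_num)
    (by norm_num) (by rw [e15]; exact HE)
    (fun q hq => by rw [e15]; exact (kk_ne hq).2.1)
    (fun q hq => by rw [e15]; exact (kk_ne hq).2.1) (by norm_num)
    (fun q hq => kS_al hm h3 h5 hχ hq) (a := 8) (b := 1) (c := 1) (d := 2) (by norm_num)
  rw [e15] at s2
  norm_num at s2
  have s3 := (evenPhi HE hP).w3_15
  rw [s3] at s2
  rw [← Phi_X hE (D_pos hm) h0, ← Phi_X hC (D_pos hm) h0]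
  linarith

/-! ### primes -/

theorem gnM_prime {l : ℕ} (hl : l.Prime) (h2 : l ≠ 2) (q : ℤ × ℤ × ℤ) : gnM l q = gen l q := by
  unfold gnM
  have h3 : ¬ 2 ∣ l := fun h => h2 ((Nat.prime_dvd_prime_iff_eq Nat.prime_two hl).1 h).symm
  rw [if_neg h3, one_mul, hl.primeFactors, Finset.erase_eq_of_notMem (by
    rw [Finset.mem_singleton]
    exact fun h => h2 h.symm), Finset.prod_singleton]

theorem EE_Fl {l : ℕ} (hl : l.Prime) (h2 : l ≠ 2) (x M : ℤ) : EE l (cE l) x M = Fl 3 5 l x M := by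
  classical
  unfold EE Fl
  apply finsum_congr
  intro q
  rw [gnM_prime hl h2]
  have e15 : ((3 * 5 : ℕ) : ℤ) = 15 := by norm_num
  have e3 : ((3 : ℕ) : ℤ) = 3 := by norm_num
  have e5 : ((5 : ℕ) : ℤ) = 5 := by norm_num
  rw [e15, e3, e5]
  by_cases h : cE l q ∧ 0 < q.1 ∧ q.1 * x ^ 2 + q.2.1 * x * M + q.2.2 * M ^ 2 < 0
  · rw [if_pos h, if_pos ⟨h.1.1, h.1.2.1, h.1.2.2, h.2⟩]
  · rw [if_neg h, if_neg (fun h1 => h ⟨⟨h1.1, h1.2.1, h1.2.2.1⟩, h1.2.2.2⟩)]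

theorem EE_Flr {l : ℕ} (hl : l.Prime) (h2 : l ≠ 2) (x M : ℤ) :
    EE l (cC l) x M = Flr 3 5 l x M := by
  classical
  unfold EE Flr
  apply finsum_congr
  intro q
  rw [gnM_prime hl h2]
  have e3 : ((3 : ℕ) : ℤ) = 3 := by norm_num
  have e5 : ((5 : ℕ) : ℤ) = 5 := by norm_num
  rw [e3, e5]
  by_cases h : cC l q ∧ 0 < q.1 ∧ q.1 * x ^ 2 + q.2.1 * x * M + q.2.2 * M ^ 2 < 0
  · rw [if_pos h, if_pos ⟨h.1.1, h.1.2.1, h.1.2.2, h.2⟩]
  · rw [if_neg h, if_neg (fun h1 => h ⟨⟨h1.1, h1.2.1, h1.2.2.1⟩, h1.2.2.2⟩)]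

theorem Fl_symm (l : ℕ) (x M : ℤ) : Fl 5 3 l x M = Fl 3 5 l x M := by
  classical
  unfold Fl
  apply finsum_congr
  intro q
  have e1 : ((5 * 3 : ℕ) : ℤ) = ((3 * 5 : ℕ) : ℤ) := by norm_num
  rw [e1]
  refine if_congr ?_ rfl rfl
  tauto

end

end Pool.Agent.N974.P15G
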