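import Pool.Agent.N974.P15G.Nm
import Pool.Agent.N974.P15G.Wt
import Pool.Agent.N974.RQ.C1D
import Pool.Agent.N975.Ph.L15
import Pool.Agent.N975.RQ.DuE
import Pool.Agent.N816.PG21.C15
import Pool.Agent.N971.P15G.C2m
import Pool.Agent.N218.RQ.Kas
import Pool.Agent.N969.P15.Fin

/-!
# P15G: the normalized central values at level `15`
-/

set_option autoImplicit false

namespace Pool.Agent.N974.P15G

open Finset
open Pool.Agent.N969.P15 (un cc Fp Cls0)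
open Pool.Agent.N969.P17G (chP chM)
open Pool.Agent.N969.RQ (Fd Fl Flr R15 R15r J o5 S_BILJ15c)
open Pool.Agent.N974.GN (X)
open Pool.Agent.N974.P21G (sum_four)
open Pool.Agent.N877.P21G (Fn)
open Pool.Agent.N973.P15G (Aii Aio Ps Fx w2 cop_l cop15_l cop15_A Ng_l exists_l cc_ne diagl SW
  kap_sum)

/-- the numbers of discriminant `- l` -/
theorem fn_l {l : ℕ} (hl : Cls0 l) : Fn l := by
  have h := hl.2
  exact Or.inl ⟨hl.1, by omega⟩

theorem l3 {l : ℕ} (hl : Cls0 l) : ¬ (3 : ℤ) ∣ l := by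
  have := hl.2
  omega

theorem l5' {l : ℕ} (hl : Cls0 l) : ¬ (5 : ℤ) ∣ l := by
  have := hl.2
  omega

/-- the unit of the symbol of discriminant `l` -/
noncomputable def ED (l : ℕ) : ℤ := Fl 3 5 l 1 2 - Fl 3 5 l 0 1

theorem X8_l {l : ℕ} (hp : l.Prime) (hl : Cls0 l) :
    X (kk l (cE l)) 8 (15 * 1) = 4 * ED l := by
  have h2 : l ≠ 2 := by have := hl.2; omega
  have H := wt_gn (fn_l hl) inv_cE (cE_ne1 (l3 hl) (l5' hl))
  have hX := X_kk (fn_l hl) inv_cE (cE_ne1 (l3 hl) (l5' hl))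
  rw [X8 H (nz_E (l3 hl) (l5' hl)), hX, hX, EE_Fl hp h2, EE_Fl hp h2]
  unfold ED
  ring

theorem gcd_1 {A : ℕ} (h3 : ¬ 3 ∣ A) (h5 : ¬ 5 ∣ A) : Nat.gcd 1 15 = Nat.gcd A 15 := by
  have h : Nat.gcd A 15 = 1 := cop15_A h3 h5
  rw [Nat.gcd_one_left, h]

theorem gcd_3 {A : ℕ} (h3 : 3 ∣ A) (h5 : ¬ 5 ∣ A) : Nat.gcd 3 15 = Nat.gcd A 15 := by
  rw [show (15 : ℕ) = 3 * 5 by norm_num, Nat.gcd_eq_left (dvd_mul_right 3 5),
    Nat.Coprime.gcd_mul_right_cancel_right 3 ((Nat.Prime.coprime_iff_not_dvd p5).2 h5).symm.symm,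
    Nat.gcd_eq_right h3]

/-- the sum of the symbol of discriminant `l`, `A` prime to `15` -/
theorem sumFl {A l : ℕ} (hA : Fd A) (h3 : ¬ 3 ∣ A) (h5 : ¬ 5 ∣ A) (hp : l.Prime) (hl : Cls0 l) :
    ((∑ u ∈ un A, chP A u * Fl 3 5 l u A : ℤ) : ℝ) = (ED l : ℝ) * sig15 A := by
  have h2 : l ≠ 2 := by have := hl.2; omega
  have H := wt_gn (fn_l hl) inv_cE (cE_ne1 (l3 hl) (l5' hl))
  have h := sum_sig15 H (par_kk (fn_l hl) inv_cE) hA (m₀ := 1) (x₀ := 0) one_pos (by norm_num)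
    (gcd_1 h3 h5) (nz_E (l3 hl) (l5' hl))
  rw [X8_l hp hl, sum_four (G := Fl 3 5 l) (fun x M => by
    rw [X_kk (fn_l hl) inv_cE (cE_ne1 (l3 hl) (l5' hl)), EE_Fl hp h2])] at h
  push_cast at h ⊢
  linarith

theorem chM_3 {l : ℕ} (hl : Cls0 l) : chM l 3 = 1 := by
  have h := hl.2
  rw [Pool.Agent.N973.P15G.chM_odd hl.1 (by omega)]
  have h1 : jacobiSym 3 l = -jacobiSym l 3 := by
    have := jacobiSym.quadratic_reciprocity_three_mod_four (a := 3) (b := l) (by norm_num)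
      (by omega)
    exact_mod_cast this
  have h2 : jacobiSym l 3 = -1 := by
    have : jacobiSym l 3 = jacobiSym ((2 : ℕ) : ℤ) 3 := by
      apply jacobiSym.mod_left'
      omega
    rw [this]
    norm_num
  rw [h1, h2, neg_neg]

/-- the sum of the symbol of discriminant `l`, `3 ∣ A` -/
theorem sumFlr {A l : ℕ} (hA : Fd A) (h3 : 3 ∣ A) (h5 : ¬ 5 ∣ A) (hp : l.Prime) (hl : Cls0 l) :
    ((∑ u ∈ un A, chP A u * Flr 3 5 l u A : ℤ) : ℝ) = -2 * (ED l : ℝ) * sig15 A := by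
  have h2 : l ≠ 2 := by have := hl.2; omega
  have H := wt_gn (fn_l hl) inv_cC (cC_ne1 (m := l))
  have h := sum_sig15 H (par_kk (fn_l hl) inv_cC) hA (m₀ := 3) (x₀ := 1) (by norm_num)
    (by norm_num) (gcd_3 h3 h5) nz_C
  rw [rel_C (fn_l hl) (l3 hl) (l5' hl) (chM_3 hl), X8_l hp hl,
    sum_four (G := Flr 3 5 l) (fun x M => by
      rw [X_kk (fn_l hl) inv_cC (cC_ne1 (m := l)), EE_Flr hp h2])] at h
  push_cast at h ⊢
  linarith

theorem S_D : Pool.Agent.N969.P15.S_DIAG := Pool.Agent.N969.P15.f_DIAG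

theorem S_P : Pool.Agent.N969.P15.S_PAR := Pool.Agent.N871.P15.s_PAR

/-- the class `(+;-1,-1)`: the sum and the constant -/
theorem sum_ii {A l : ℕ} {κ : ℤ} (hA : Aii A) (hp : l.Prime) (hl : Cls0 l) (hlA : ¬ l ∣ A)
    (hκ : ∀ x M : ℤ, 0 < M → IsCoprime x M → IsCoprime M 15 → Fx w2 A x M = κ * Fp x M) :
    18 * ∑ u ∈ un A, chP A u * Fl 3 5 l u A = κ * cc l ^ 2 := by
  have hPs := hA.1
  have h3A : ¬ 3 ∣ A := by have := hA.2.1; omega
  have h5A : ¬ 5 ∣ A := by have := hA.2.2; omega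
  have hl2 := hl.2
  have hcA := cop_l hp hlA
  have h15 : Nat.Coprime (A * l) 15 := Nat.Coprime.mul_left (cop15_A h3A h5A) (cop15_l hl)
  have e1 := Pool.Agent.N974.RQ.t_C1D 5 3 A l Nat.prime_five Nat.prime_three (by norm_num)
    (by norm_num) (by norm_num) (Pool.Agent.N973.P15G.Fd_of hPs) hp (by omega) (by omega)
    (by omega) hlA h3A h5A
  have e2 : ∑ T ∈ (range (A * l)).filter (fun T => 3 ∣ T ∧ 5 ∣ A * l - T),
      Pool.Agent.N969.RQ.WD 5 3 A l (A * l - T) T = SW A l := by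
    unfold SW
    refine Finset.sum_congr rfl fun T hT => ?_
    simp only [Finset.mem_filter, Finset.mem_range] at hT
    refine Pool.Agent.N971.P15G.t_C2MD A l hA hp hl hlA T ?_ hT.1 hT.2.1 hT.2.2
    rcases Nat.eq_zero_or_pos T with h0 | h0
    · exfalso
      subst h0
      have h5 : 5 ∣ A * l := by have := hT.2.2; rwa [Nat.sub_zero] at this
      have := Nat.Coprime.eq_one_of_dvd (Nat.Coprime.coprime_dvd_left h5 h15) (by norm_num)
      omega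
    · exact h0
  have e3 := kap_sum Pool.Agent.N816.PG15.t_C1M hPs (Ng_l hl) hcA h15 hκ
  have e4 := diagl S_D hl
  have e5 : ∑ u ∈ un A, chP A u * Fl 3 5 l u A = ∑ u ∈ un A, chP A u * Fl 5 3 l u A :=
    Finset.sum_congr rfl fun u _ => by rw [Fl_symm]
  rw [e5, e1, e2, e3]
  linear_combination κ * e4

theorem Aii_8 : Aii 8 := by
  refine ⟨Or.inr ⟨2, rfl, Nat.prime_two.squarefree, Or.inl rfl⟩, rfl, Or.inr rfl⟩

/-- the constant of `8` -/
theorem kap_8 {κ : ℤ} (hκ : ∀ x M : ℤ, 0 < M → IsCoprime x M → IsCoprime M 15 →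
    Fx w2 8 x M = κ * Fp x M) : κ = -4 := by
  have h := hκ 1 4 (by norm_num) isCoprime_one_left (by norm_num)
  rw [Fx8, Pool.Agent.N975.Sym.Fp14] at h
  linarith

/-- **the unit of the symbol of discriminant `l`** -/
theorem ED_eq {l : ℕ} (hp : l.Prime) (hl : Cls0 l) : 18 * ED l = cc l ^ 2 := by
  obtain ⟨κ, k1, -⟩ := Pool.Agent.N975.Ph.t_SYMii 8 Aii_8
  have hlA : ¬ l ∣ 8 := by
    intro h
    have h1 : l ∣ 2 ^ 3 := h
    have h2 := (Nat.prime_dvd_prime_iff_eq hp Nat.prime_two).1 (hp.dvd_of_dvd_pow h1)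
    have := hl.2
    omega
  have e1 := sum_ii Aii_8 hp hl hlA k1
  have e2 := sumFl (Pool.Agent.N973.P15G.Fd_of Aii_8.1) (by norm_num) (by norm_num) hp hl
  rw [kap_8 k1] at e1
  rw [sig_8] at e2
  have e3 : ∑ u ∈ un 8, chP 8 u * Fl 3 5 l u (8 : ℕ) = -4 * ED l := by
    have : ((∑ u ∈ un 8, chP 8 u * Fl 3 5 l u (8 : ℕ) : ℤ) : ℝ) = ((-4 * ED l : ℤ) : ℝ) := by
      rw [e2]
      push_cast
      ring
    exact_mod_cast this
  rw [e3] at e1
  linarith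

/-- **the class `(+;-1,-1)`** -/
theorem sig_ii {A : ℕ} {κ : ℤ} (hA : Aii A)
    (hκ : ∀ x M : ℤ, 0 < M → IsCoprime x M → IsCoprime M 15 → Fx w2 A x M = κ * Fp x M) :
    sig15 A = κ := by
  have hF := Pool.Agent.N973.P15G.Fd_of hA.1
  obtain ⟨l, hp, hl, hlA⟩ := exists_l A (by have := hF.1; omega)
  have e1 := sum_ii hA hp hl hlA hκ
  have e2 := sumFl hF (by have := hA.2.1; omega) (by have := hA.2.2; omega) hp hl
  have e3 : (18 : ℝ) * ED l = (cc l : ℝ) ^ 2 := by exact_mod_cast ED_eq hp hl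
  have e4 : (18 : ℝ) * ((∑ u ∈ un A, chP A u * Fl 3 5 l u A : ℤ) : ℝ) = κ * (cc l : ℝ) ^ 2 := by
    exact_mod_cast e1
  have e5 : (cc l : ℝ) ^ 2 ≠ 0 := pow_ne_zero 2 (by exact_mod_cast cc_ne S_P hp hl)
  rw [e2] at e4
  apply mul_left_cancel₀ e5
  linear_combination e4 - sig15 A * e3

/-- **the class `(+;1,1)`** -/
theorem sig_R15 (hB : S_BILJ15c) {A : ℕ} (hA : R15 A) :
    sig15 A = -4 * (J 15 o5 A 1 1 3 : ℝ) ^ 2 := by
  have hF := hA.1
  have h3A : ¬ 3 ∣ A := by have := hA.2.1; omega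
  have h5A : ¬ 5 ∣ A := by
    intro h
    have h1 := hA.2.2
    rw [Pool.Agent.N974.RQ.jac_zero_of_dvd p5 (by exact_mod_cast h)] at h1
    norm_num at h1
  obtain ⟨l, hp, hl, hlA⟩ := exists_l A (by have := hF.1; omega)
  have hl2 := hl.2
  have hn3 : ¬ 3 ∣ A * l := by
    intro h
    rcases (Nat.Prime.dvd_mul Nat.prime_three).1 h with h | h <;> omega
  have e0 := Pool.Agent.N218.RQ.dual15 hB hA hp hl hlA
  have e1 := Pool.Agent.N974.RQ.t_C1D 3 5 A l Nat.prime_three Nat.prime_five (by norm_num)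
    (by norm_num) (by norm_num) hF hp (by omega) (by omega) (by omega) hlA h5A h3A
  have e : ∀ T ∈ (range (A * l)).filter (fun T => 5 ∣ T ∧ 3 ∣ A * l - T),
      Pool.Agent.N969.RQ.WD 3 5 A l (A * l - T) T =
        - (Pool.Agent.N969.RQ.sl A l T * Pool.Agent.N969.RQ.ld15 (A * l) T) := by
    intro T hT
    rw [mem_filter, mem_range] at hT
    have hT0 : 0 < T := by
      rcases Nat.eq_zero_or_pos T with h0 | h0
      · exfalso
        rw [h0, Nat.sub_zero] at hT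
        exact hn3 hT.2.2
      · exact h0
    exact Pool.Agent.N975.RQ.Du.t_C2D15 A l hA hp hl hlA T hT0 hT.1 hT.2.1 hT.2.2
  rw [sum_congr rfl e, sum_neg_distrib] at e1
  have e2 := sumFl hF h3A h5A hp hl
  have e3 : (18 : ℝ) * ED l = (cc l : ℝ) ^ 2 := by exact_mod_cast ED_eq hp hl
  have e4 : (18 : ℝ) * ((∑ u ∈ un A, chP A u * Fl 3 5 l u A : ℤ) : ℝ) =
      -4 * (J 15 o5 A 1 1 3 : ℝ) ^ 2 * (cc l : ℝ) ^ 2 := by
    have : 18 * ∑ u ∈ un A, chP A u * Fl 3 5 l u A =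
        -4 * J 15 o5 A 1 1 3 ^ 2 * cc l ^ 2 := by
      rw [e1]
      linarith
    exact_mod_cast this
  have e5 : (cc l : ℝ) ^ 2 ≠ 0 := pow_ne_zero 2 (by exact_mod_cast cc_ne S_P hp hl)
  rw [e2] at e4
  apply mul_left_cancel₀ e5
  linear_combination e4 - sig15 A * e3

/-- **the class `(+;0,1)`** -/
theorem sig_R15r (hB : S_BILJ15c) {A : ℕ} (hA : R15r A) :
    sig15 A = -8 * (J 15 o5 A 1 1 3 : ℝ) ^ 2 := by
  have hF := hA.1
  have h3A := hA.2.1
  have h5A : ¬ 5 ∣ A := by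
    intro h
    have h1 := hA.2.2
    rw [Pool.Agent.N974.RQ.jac_zero_of_dvd p5 (by exact_mod_cast h)] at h1
    norm_num at h1
  obtain ⟨l, hp, hl, hlA⟩ := exists_l A (by have := hF.1; omega)
  have hl2 := hl.2
  have e0 := Pool.Agent.N218.RQ.dual15r hB hA hp hl hlA
  have e1 := Pool.Agent.N974.RQ.t_C1Dr 3 5 A l Nat.prime_three Nat.prime_five (by norm_num)
    (by norm_num) (by norm_num) hF hp (by omega) (by omega) (by omega) hlA h5A h3A
  have e : ∀ T ∈ (range (A * l)).filter (fun T => 5 ∣ T ∧ ¬ 3 ∣ T),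
      Pool.Agent.N969.RQ.WDr 3 5 A l (A * l - T) T =
        - (Pool.Agent.N969.RQ.sl A l T * Pool.Agent.N969.RQ.ld15r (A * l) T) := by
    intro T hT
    rw [mem_filter, mem_range] at hT
    have hT0 : 0 < T := by
      rcases Nat.eq_zero_or_pos T with h0 | h0
      · exfalso
        rw [h0] at hT
        exact hT.2.2 (dvd_zero 3)
      · exact h0
    exact Pool.Agent.N975.RQ.Du.t_C2D15r A l hA hp hl hlA T hT0 hT.1 hT.2.1 hT.2.2
  rw [sum_congr rfl e, sum_neg_distrib] at e1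
  have e2 := sumFlr hF h3A h5A hp hl
  have e3 : (18 : ℝ) * ED l = (cc l : ℝ) ^ 2 := by exact_mod_cast ED_eq hp hl
  have e4 : (18 : ℝ) * ((∑ u ∈ un A, chP A u * Flr 3 5 l u A : ℤ) : ℝ) =
      16 * (J 15 o5 A 1 1 3 : ℝ) ^ 2 * (cc l : ℝ) ^ 2 := by
    have : 18 * ∑ u ∈ un A, chP A u * Flr 3 5 l u A =
        16 * J 15 o5 A 1 1 3 ^ 2 * cc l ^ 2 := by
      rw [e1]
      linarith
    exact_mod_cast this
  have e5 : (cc l : ℝ) ^ 2 ≠ 0 := pow_ne_zero 2 (by exact_mod_cast cc_ne S_P hp hl)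
  rw [e2] at e4
  apply mul_left_cancel₀ e5
  linear_combination (-1 / 2) * e4 - sig15 A * e3

end Pool.Agent.N974.P15G
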