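import Pool.Agent.N974.P21G.Ev7

/-!
# Even homomorphisms: level `5`, special values at level `15`
-/

set_option autoImplicit false

namespace Pool.Agent.N974.GN.EvenHom

variable {R : Type*} [AddCommGroup R] [NoZeroSMulDivisors ℤ R] {φ : ℤ → ℤ → ℤ → ℤ → R}

/-- there is no even homomorphism of level `5` -/
theorem zero5 (H : EvenHom 5 φ) : ∀ a b c d : ℤ, a * d - 5 * (b * c) = 1 → φ a b c d = 0 := by
  have g2 : φ 3 1 1 2 = 0 := by
    have h1 := H.tr (by norm_num : (3 : ℤ) * 2 - 5 * (1 * 1) = 1)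
    have h2 := H.ref (by norm_num : (3 : ℤ) * 2 - 5 * (1 * 1) = 1)
    have h3 : φ 2 1 1 3 = φ (-3) 1 1 (-2) :=
      H.modD (by norm_num) (by norm_num) (by norm_num) (by norm_num)
    rw [h3, h2] at h1
    exact two_zero h1
  have gen1 : ∀ {A B D : ℤ}, A * D - 5 * (B * 1) = 1 → φ A B 1 D = 0 := by
    intro A B D h
    have key : ∀ {A0 B0 D0 : ℤ}, A0 * D0 - 5 * (B0 * 1) = 1 → φ A0 B0 1 D0 = 0 →
        ((5 : ℤ) ∣ D - D0 ∨ (5 : ℤ) ∣ D + D0) → φ A B 1 D = 0 := by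
      intro A0 B0 D0 h0 h1 h2
      rcases h2 with h2 | h2
      · rw [H.modD (by norm_num) h0 h (by rwa [mul_one]), h1]
      · have h3 := H.ref h0
        have h4 : (-A0) * (-D0) - 5 * (B0 * 1) = 1 := by linear_combination h0
        rw [H.modD (by norm_num) h4 h (by rwa [mul_one, sub_neg_eq_add]), h3, h1]
    have hD5 : ¬ (5 : ℤ) ∣ D := by
      rintro ⟨k, rfl⟩
      have h1 : (5 : ℤ) ∣ 1 := ⟨A * k - B, by linear_combination -h⟩
      norm_num at h1
    have hc : ((5 : ℤ) ∣ D - 1 ∨ (5 : ℤ) ∣ D + 1) ∨ ((5 : ℤ) ∣ D - 2 ∨ (5 : ℤ) ∣ D + 2) := by omega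
    rcases hc with hc | hc
    · exact key (A0 := 1) (B0 := 0) (by norm_num) H.hV hc
    · exact key (A0 := 3) (B0 := 1) (D0 := 2) (by norm_num) g2 hc
  intro a b c d h
  exact zero_of_prime (p := 5) (by norm_num) (by norm_num) (φ := φ) (by exact_mod_cast H)
    (fun {A B D} h => gen1 (by exact_mod_cast h)) d.natAbs a b c d (by exact_mod_cast h) rfl

section lev15

theorem v11 (H : EvenHom 15 φ) : φ (-11) 4 2 (-11) = 0 := by
  have h1 : φ 11 4 2 11 = 0 := two_zero (H.tr (by norm_num : (11 : ℤ) * 11 - 15 * (4 * 2) = 1))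
  have h2 := H.ref (by norm_num : (11 : ℤ) * 11 - 15 * (4 * 2) = 1)
  rw [h2, h1]

theorem v18 (H : EvenHom 15 φ) : φ 2 1 1 8 = -φ 8 1 1 2 :=
  H.tr (by norm_num)

/-- the value at `3 / 8` -/
theorem v38 (H : EvenHom 15 φ) : φ 17 3 3 8 = φ 8 1 1 2 := by
  have h1 := H.hom (a := -11) (b := 4) (c := 2) (d := -11) (a' := 17) (b' := 3) (c' := 3)
    (d' := 8) (by norm_num) (by norm_num)
  norm_num at h1
  rw [H.v11, zero_add] at h1
  rw [← h1]
  exact H.modD (by norm_num) (by norm_num) (by norm_num) (by norm_num)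

/-- the involution of level `3` -/
theorem w3_15 (H : EvenHom 15 φ) : φ 23 (-5) 4 (-13) = φ 8 1 1 2 := by
  have h1 := H.hom (a := -11) (b := 4) (c := 2) (d := -11) (a' := 23) (b' := -5) (c' := 4)
    (d' := -13) (by norm_num) (by norm_num)
  norm_num at h1
  rw [H.v11, zero_add] at h1
  have h2 := H.hom (a := -2) (b := -1) (c := 1) (d := 7) (a' := -13) (b' := 3) (c' := 2)
    (d' := -7) (by norm_num) (by norm_num)
  norm_num at h2
  have h3 : φ (-2) (-1) 1 7 = -φ 8 1 1 2 := by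
    have h4 := H.ref (by norm_num : (2 : ℤ) * (-7) - 15 * (-1 * 1) = 1)
    rw [neg_neg] at h4
    rw [h4, ← H.v18]
    exact H.modD (by norm_num) (by norm_num) (by norm_num) (by norm_num)
  have h5 : φ (-4) 1 1 (-4) = 0 := by
    have h4 := H.ref (by norm_num : (4 : ℤ) * 4 - 15 * (1 * 1) = 1)
    rw [h4]
    exact two_zero (H.tr (by norm_num : (4 : ℤ) * 4 - 15 * (1 * 1) = 1))
  rw [h3, h5, h1] at h2
  rw [eq_comm, neg_add_eq_zero] at h2
  exact h2.symm

end lev15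

end Pool.Agent.N974.GN.EvenHom
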