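import Pool.Agent.N974.P15G.Sg
import Pool.Agent.N973.P15G.FdW

/-!
# P15G: numerical values of the crossing numbers
-/

set_option autoImplicit false

namespace Pool.Agent.N974.P15G

open Finset
open Pool.Agent.N969.P17G (gen gnE)
open Pool.Agent.N973.P15G (w2 Fx Fd)

/-- the bounds for the forms with a negative value -/
theorem bnd {a b c D x M : ℤ} (h : b ^ 2 - 4 * a * c = D) (ha : 0 < a)
    (hv : a * x ^ 2 + b * x * M + c * M ^ 2 < 0) :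
    (2 * a * x + b * M) ^ 2 < D * M ^ 2 ∧ 4 * a ≤ D * M ^ 2 := by
  have e : (2 * a * x + b * M) ^ 2 =
      D * M ^ 2 + 4 * a * (a * x ^ 2 + b * x * M + c * M ^ 2) := by rw [← h]; ring
  have h1 : 4 * a * (a * x ^ 2 + b * x * M + c * M ^ 2) ≤ 4 * a * (-1) :=
    mul_le_mul_of_nonneg_left (by omega) (by omega)
  have h2 := sq_nonneg (2 * a * x + b * M)
  constructor <;> nlinarith

theorem Fx_eval (w : ℕ → ℤ × ℤ × ℤ → ℤ) (A : ℕ) (x M : ℤ) (S : Finset (ℤ × ℤ × ℤ))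
    (h1 : ∀ q : ℤ × ℤ × ℤ, q.2.1 ^ 2 - 4 * q.1 * q.2.2 = (A : ℤ) ^ 2 → 0 < q.1 →
      q.1 * x ^ 2 + q.2.1 * x * M + q.2.2 * M ^ 2 < 0 → w A q ≠ 0 → q ∈ S)
    (h2 : ∀ q ∈ S, q.2.1 ^ 2 - 4 * q.1 * q.2.2 = (A : ℤ) ^ 2 ∧ 0 < q.1 ∧
      q.1 * x ^ 2 + q.2.1 * x * M + q.2.2 * M ^ 2 < 0) :
    Fx w A x M = ∑ q ∈ S, w A q * gnE A q := by
  classical
  have hs : Function.support (fun q : ℤ × ℤ × ℤ =>
      if q.2.1 ^ 2 - 4 * q.1 * q.2.2 = (A : ℤ) ^ 2 ∧ 0 < q.1 ∧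
        q.1 * x ^ 2 + q.2.1 * x * M + q.2.2 * M ^ 2 < 0 then w A q * gnE A q else 0) ⊆
      (S : Set (ℤ × ℤ × ℤ)) := by
    intro q hq
    by_contra hn
    apply hq
    simp only
    by_cases h : q.2.1 ^ 2 - 4 * q.1 * q.2.2 = (A : ℤ) ^ 2 ∧ 0 < q.1 ∧
        q.1 * x ^ 2 + q.2.1 * x * M + q.2.2 * M ^ 2 < 0
    · rw [if_pos h]
      by_cases hw : w A q = 0
      · rw [hw, zero_mul]
      · exact absurd (h1 q h.1 h.2.1 h.2.2 hw) hn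
    · rw [if_neg h]
  unfold Fx
  rw [finsum_eq_sum_of_support_subset _ hs]
  exact Finset.sum_congr rfl fun q hq => if_pos (h2 q hq)

/-- the forms for `8` -/
def S8 : Finset (ℤ × ℤ × ℤ) := {(15, -2, -1), (45, -28, 4), (60, -28, 3), (60, -32, 4),
  (135, -62, 7)}

theorem enum8 : ∀ k ∈ Finset.Icc (1 : ℤ) 17, ∀ b ∈ Finset.Icc (-140 : ℤ) 10,
    b ^ 2 - 4 * (15 * k) * ((b ^ 2 - 64) / (4 * (15 * k))) = 64 →
    15 * k * 1 ^ 2 + b * 1 * 4 + (b ^ 2 - 64) / (4 * (15 * k)) * 4 ^ 2 < 0 →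
    ¬ ((15 : ℤ) ∣ b - 8 ∨ (15 : ℤ) ∣ b + 8) →
    (15 * k, b, (b ^ 2 - 64) / (4 * (15 * k))) ∈ S8 := by decide +kernel

theorem Fx8 : Fx w2 8 1 4 = -4 := by
  rw [Fx_eval w2 8 1 4 S8]
  · decide +kernel
  · rintro ⟨a, b, c⟩ h1 h2 h3 h4
    simp only at h1 h2 h3
    have hw : ((5 : ℤ) ∣ a ∧ ¬ ((15 : ℤ) ∣ b - 8 ∨ (15 : ℤ) ∣ b + 8)) ∧ (3 : ℤ) ∣ a := by
      unfold w2 Pool.Agent.N973.P15G.w3 at h4
      simp only at h4
      split_ifs at h4 with g1 g2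
      · exact ⟨by exact_mod_cast g1, g2⟩
      · exact ⟨by exact_mod_cast g1, g2⟩
      · exact absurd rfl h4
      · exact absurd rfl h4
    obtain ⟨⟨h5, h6⟩, h7⟩ := hw
    obtain ⟨k, hk⟩ : (15 : ℤ) ∣ a := by omega
    obtain ⟨b1, b2⟩ := bnd h1 h2 h3
    have e8 : ((8 : ℕ) : ℤ) = 8 := rfl
    rw [e8] at h1 b1 b2
    subst hk
    have b3 : |2 * (15 * k) * 1 + b * 4| < 32 := by
      apply abs_lt_of_sq_lt_sq _ (by norm_num)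
      calc _ < _ := b1
        _ = _ := by norm_num
    rw [abs_lt] at b3
    have hc : c = (b ^ 2 - 64) / (4 * (15 * k)) := by
      symm
      apply Int.ediv_eq_of_eq_mul_right (by omega)
      linear_combination h1
    have hk1 : k ∈ Finset.Icc (1 : ℤ) 17 := Finset.mem_Icc.2 ⟨by omega, by omega⟩
    have hb1 : b ∈ Finset.Icc (-140 : ℤ) 10 := Finset.mem_Icc.2 ⟨by omega, by omega⟩
    have h8 := enum8 k hk1 b hb1
    rw [← hc] at h8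
    exact h8 (by rw [h1]; norm_num) h3 h6
  · decide +kernel

/-! ### the symbol of discriminant `9` -/

/-- the weight of the symbol of discriminant `9` -/
theorem Fd_eval (x M : ℤ) (S : Finset (ℤ × ℤ × ℤ))
    (h1 : ∀ q : ℤ × ℤ × ℤ, q.2.1 ^ 2 - 4 * q.1 * q.2.2 = 9 → (9 : ℤ) ∣ q.1 → ¬ (5 : ℤ) ∣ q.1 →
      0 < q.1 → q.1 * x ^ 2 + q.2.1 * x * M + q.2.2 * M ^ 2 < 0 → q ∈ S)
    (h2 : ∀ q ∈ S, q.2.1 ^ 2 - 4 * q.1 * q.2.2 = 9 ∧ (9 : ℤ) ∣ q.1 ∧ ¬ (5 : ℤ) ∣ q.1 ∧ 0 < q.1 ∧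
      q.1 * x ^ 2 + q.2.1 * x * M + q.2.2 * M ^ 2 < 0) :
    Fd x M = ∑ q ∈ S, jacobiSym q.2.2 3 := by
  classical
  have hs : Function.support (fun q : ℤ × ℤ × ℤ =>
      if q.2.1 ^ 2 - 4 * q.1 * q.2.2 = 9 ∧ (9 : ℤ) ∣ q.1 ∧ ¬ (5 : ℤ) ∣ q.1 ∧ 0 < q.1 ∧
        q.1 * x ^ 2 + q.2.1 * x * M + q.2.2 * M ^ 2 < 0 then jacobiSym q.2.2 3 else 0) ⊆
      (S : Set (ℤ × ℤ × ℤ)) := by
    intro q hq
    by_contra hn
    apply hq
    simp only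
    rw [if_neg]
    intro h
    exact hn (h1 q h.1 h.2.1 h.2.2.1 h.2.2.2.1 h.2.2.2.2)
  unfold Fd
  rw [finsum_eq_sum_of_support_subset _ hs]
  exact Finset.sum_congr rfl fun q hq => if_pos (h2 q hq)

def S91 : Finset (ℤ × ℤ × ℤ) := {(9, -3, 0), (18, -9, 1), (54, -21, 2)}

def S92 : Finset (ℤ × ℤ × ℤ) := {(9, -9, 2), (18, -15, 3), (27, -21, 4), (36, -27, 5)}

theorem enum91 : ∀ k ∈ Finset.Icc (1 : ℤ) 6, ∀ b ∈ Finset.Icc (-26 : ℤ) 3,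
    b ^ 2 - 4 * (9 * k) * ((b ^ 2 - 9) / (4 * (9 * k))) = 9 →
    9 * k * 1 ^ 2 + b * 1 * 5 + (b ^ 2 - 9) / (4 * (9 * k)) * 5 ^ 2 < 0 → ¬ (5 : ℤ) ∣ 9 * k →
    (9 * k, b, (b ^ 2 - 9) / (4 * (9 * k))) ∈ S91 := by decide +kernel

theorem enum92 : ∀ k ∈ Finset.Icc (1 : ℤ) 6, ∀ b ∈ Finset.Icc (-50 : ℤ) 3,
    b ^ 2 - 4 * (9 * k) * ((b ^ 2 - 9) / (4 * (9 * k))) = 9 →
    9 * k * 2 ^ 2 + b * 2 * 5 + (b ^ 2 - 9) / (4 * (9 * k)) * 5 ^ 2 < 0 → ¬ (5 : ℤ) ∣ 9 * k →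
    (9 * k, b, (b ^ 2 - 9) / (4 * (9 * k))) ∈ S92 := by decide +kernel

theorem Fd15 : Fd 1 5 = 0 := by
  rw [Fd_eval 1 5 S91]
  · decide +kernel
  · rintro ⟨a, b, c⟩ h1 ⟨k, hk⟩ h5 h2 h3
    simp only at h1 hk h5 h2 h3
    obtain ⟨b1, b2⟩ := bnd h1 h2 h3
    subst hk
    have b3 : |2 * (9 * k) * 1 + b * 5| < 15 := by
      apply abs_lt_of_sq_lt_sq _ (by norm_num)
      calc _ < _ := b1
        _ = _ := by norm_num
    rw [abs_lt] at b3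
    have hc : c = (b ^ 2 - 9) / (4 * (9 * k)) := by
      symm
      apply Int.ediv_eq_of_eq_mul_right (by omega)
      linear_combination h1
    have h8 := enum91 k (Finset.mem_Icc.2 ⟨by omega, by omega⟩) b
      (Finset.mem_Icc.2 ⟨by omega, by omega⟩)
    rw [← hc] at h8
    exact h8 h1 h3 h5
  · decide +kernel

theorem Fd25 : Fd 2 5 = -1 := by
  rw [Fd_eval 2 5 S92]
  · decide +kernel
  · rintro ⟨a, b, c⟩ h1 ⟨k, hk⟩ h5 h2 h3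
    simp only at h1 hk h5 h2 h3
    obtain ⟨b1, b2⟩ := bnd h1 h2 h3
    subst hk
    have b3 : |2 * (9 * k) * 2 + b * 5| < 15 := by
      apply abs_lt_of_sq_lt_sq _ (by norm_num)
      calc _ < _ := b1
        _ = _ := by norm_num
    rw [abs_lt] at b3
    have hc : c = (b ^ 2 - 9) / (4 * (9 * k)) := by
      symm
      apply Int.ediv_eq_of_eq_mul_right (by omega)
      linear_combination h1
    have h8 := enum92 k (Finset.mem_Icc.2 ⟨by omega, by omega⟩) b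
      (Finset.mem_Icc.2 ⟨by omega, by omega⟩)
    rw [← hc] at h8
    exact h8 h1 h3 h5
  · decide +kernel

end Pool.Agent.N974.P15G
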