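import Pool.Agent.N974.P21G.Cm
import Pool.Agent.N974.P15G.Hom

/-!
# P15G: the real symbol of the elliptic curve of level `15`, the normalized central value
-/

set_option autoImplicit false

namespace Pool.Agent.N974.P15G

open Finset
open Pool.Agent.N969.P15 (un c2 Ev)
open Pool.Agent.N969.P17G (gen chP chM)
open Pool.Agent.N969.RQ (Fd)
open Pool.Agent.N975.Sym (ev act act_inv)
open Pool.Agent.N974.GN (Wt Par X NZ X_pos X_coc0 evenHom EvenHom evenS cmp15 sum_class sq15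
  re_ne15 lv15_O lv15_E sum_un_jac sum_un_chE eigen15 Fin15)
open Pool.Agent.N974.Gen (II symbP)
open Pool.Agent.N974.RQ (mA chP_odd ev_of odd_of)
open Pool.Agent.N974.MF (E15 f15)
open Pool.Agent.N974.P21G (sum_chP sum_four)
open Pool.Agent.Y687 (RankBSD rankBSD)

noncomputable section

/-- the real symbol of the elliptic curve of level `15` -/
def sy15 (r : ℚ) : ℝ := (II f15 r).re

/-- the unit of the real symbol -/
def ky15 : ℝ := sy15 (1 / 2) - sy15 0

theorem ky15_ne : ky15 ≠ 0 := re_ne15 eigen15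

/-- the normalized central value -/
def sig15 (A : ℕ) : ℝ := (∑ u ∈ un A, (chP A u : ℝ) * sy15 ((u : ℚ) / A)) / ky15

theorem sig15_mul (A : ℕ) :
    ky15 * sig15 A = ∑ u ∈ un A, (chP A u : ℝ) * sy15 ((u : ℚ) / A) := by
  unfold sig15
  rw [mul_div_cancel₀ _ ky15_ne]

/-- the character sums of the crossing numbers of an even weight -/
theorem sum_sig15 {D : ℤ} {k : ℤ × ℤ × ℤ → ℤ} (H : Wt 15 D k) (Pk : Par k (-1)) {A m₀ : ℕ}
    {x₀ : ℤ} (hA : Fd A) (hm₀ : 0 < m₀) (hx₀ : IsCoprime x₀ (m₀ : ℤ))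
    (hg : Nat.gcd m₀ 15 = Nat.gcd A 15) (hz : NZ k x₀ m₀) :
    ((∑ u ∈ un A, chP A u * X k u A : ℤ) : ℝ) = (X k 8 (15 * 1) : ℝ) * sig15 A := by
  have P := symbP eigen15 (by norm_num : 1 < 15)
  have hA0 : 0 < A := by have := hA.1; omega
  have h1 := sum_class (N := 15) P sq15 (k := k) (D := D) H (κ := ky15)
    (μ := ((X k 8 (15 * 1) : ℤ) : ℝ)) ?_ hA0 hm₀ hx₀ hg hz (χ := fun u => chP A u) (sum_chP hA)
  · have h2 : ∑ u ∈ un A, (chP A u : ℝ) * (II f15 ((u : ℚ) / A)).re = ky15 * sig15 A :=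
      (sig15_mul A).symm
    rw [h2] at h1
    have h3 : ky15 * ((∑ u ∈ un A, chP A u * X k u A : ℤ) : ℝ) =
        ky15 * ((X k 8 (15 * 1) : ℝ) * sig15 A) := by
      rw [h1]
      ring
    exact mul_left_cancel₀ ky15_ne h3
  · intro a b c d hd
    have hd' : a * d - 15 * (b * c) = 1 := by exact_mod_cast hd
    exact cmp15 P (EvenHom.cast (evenHom H Pk)) hd'

/-! ### the value of `8` -/

theorem K15 : EvenHom 15 (fun _ b _ d : ℤ => sy15 ((b : ℚ) / d) - sy15 0) := by
  have h := evenS (symbP eigen15 (by norm_num : 1 < 15)) (by norm_num)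
  exact_mod_cast h

theorem sy_neg (x : ℚ) : sy15 (-x) = sy15 x := (symbP eigen15 (by norm_num : 1 < 15)).neg x

theorem sy_per (x : ℚ) : sy15 (x + 1) = sy15 x := (symbP eigen15 (by norm_num : 1 < 15)).per x

theorem sy_18 : sy15 (1 / 8) = sy15 0 - ky15 := by
  have h := K15.v18
  unfold ky15
  push_cast at h
  linarith

theorem sy_38 : sy15 (3 / 8) = sy15 0 + ky15 := by
  have h := K15.v38
  unfold ky15
  push_cast at h
  linarith

theorem un8 : un 8 = {1, 3, 5, 7} := by decide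

theorem sig_8 : sig15 8 = -4 := by
  have h5 : sy15 (5 / 8) = sy15 0 + ky15 := by
    rw [← sy_38, ← sy_neg (3 / 8), ← sy_per (-(3 / 8))]
    norm_num
  have h7 : sy15 (7 / 8) = sy15 0 - ky15 := by
    rw [← sy_18, ← sy_neg (1 / 8), ← sy_per (-(1 / 8))]
    norm_num
  have c1 : chP 8 1 = 1 := by decide +kernel
  have c3 : chP 8 3 = -1 := by decide +kernel
  have c5 : chP 8 5 = -1 := by decide +kernel
  have c7 : chP 8 7 = 1 := by decide +kernel
  have h := sig15_mul 8
  rw [un8] at h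
  rw [Finset.sum_insert (by decide), Finset.sum_insert (by decide), Finset.sum_insert (by decide),
    Finset.sum_singleton] at h
  push_cast at h
  rw [c1, c3, c5, c7, sy_18, sy_38, h5, h7] at h
  apply mul_left_cancel₀ ky15_ne
  rw [h]
  push_cast
  ring

/-! ### the rank form of the conjecture -/

/-- **the rank form of the conjecture if the normalized central value does not vanish** -/
theorem rank_sig15 {A : ℕ} (hA : Fd A) (h : sig15 A ≠ 0) (hfin : Fin15 (mA A : ℤ)) :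
    RankBSD (-12987 * (mA A : ℤ) ^ 2) (-263466 * (mA A : ℤ) ^ 3) := by
  have h1 : ∑ u ∈ un A, (chP A u : ℝ) * (II f15 ((u : ℚ) / A)).re ≠ 0 := by
    intro h0
    apply h
    have h2 : ky15 * sig15 A = 0 := by
      rw [sig15_mul]
      exact h0
    exact (mul_eq_zero.1 h2).resolve_left ky15_ne
  by_cases h2 : 2 ∣ A
  · have e : mA A = A / 4 := by unfold mA; rw [if_pos h2]
    rw [e] at hfin ⊢
    have e1 : ∑ u ∈ un A, (Pool.Agent.N974.Gen.ChP.chE A u : ℝ) * (II f15 ((u : ℚ) / A)).re =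
        ∑ u ∈ un A, (chP A u : ℝ) * (II f15 ((u : ℚ) / A)).re :=
      Finset.sum_congr rfl fun u _ => by rw [Pool.Agent.N974.PG.chP_eq (ev_of hA h2)]
    rw [← e1] at h1
    obtain ⟨F, hF, hFp, hF1⟩ := lv15_E eigen15 (ev_of hA h2) h1
    exact rankBSD hF hFp hF1 hfin
  · have e : mA A = A := by unfold mA; rw [if_neg h2]
    rw [e] at hfin ⊢
    obtain ⟨hsq, h4⟩ := odd_of hA h2
    have e1 : ∑ u ∈ un A, (jacobiSym u A : ℝ) * (II f15 ((u : ℚ) / A)).re =
        ∑ u ∈ un A, (chP A u : ℝ) * (II f15 ((u : ℚ) / A)).re :=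
      Finset.sum_congr rfl fun u _ => by rw [chP_odd hsq h2]
    rw [← e1] at h1
    obtain ⟨F, hF, hFp, hF1⟩ := lv15_O eigen15 hsq h4 hA.1 h1
    exact rankBSD hF hFp hF1 hfin

end

end Pool.Agent.N974.P15G
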